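import Pool.Agent.U565.TP.Final

set_option autoImplicit false

/-!
# Metrics near the metric of an embedded torus that are not induced by any smooth map

The torus is `T² = ℝ² / (2πℤ)²`; metrics on it and maps of it are smooth doubly `2π`-periodic
functions on `ℝ²`. The definitions `dx`, `dy` (partial derivatives), `Per` (double periodicity),
`IsTorusMetric`, `IsIsometricImmersion`, `IsIsometricEmbedding`, `pnorm` (the norm of a symmetric
tensor with respect to a metric), `C0Close`, `CkClose`, `rot` (the metric `a² dx² + f(x)² dy²`) and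
`rev` (the surface of revolution with meridian `(f, h)`) are in `Pool/Agent/U565/TP/Calc.lean`,
`Area.lean` and `Defs.lean`.

The answer to Q1 is negative. For the standard torus `g₀` with radii `0 < r < R` (and for every torus
of revolution whose meridian `(f, h)`, of constant speed `a`, satisfies `∫ max (-f'') 0 ≤ 2 a`, e.g.
is convex) there are smooth metrics `g` arbitrarily close to `g₀` in `C^0`, and even in `C^k` for
every `k`, for which `(T², g)` has no smooth isometric immersion into `ℝ³` at all.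

Proof. For an isometric immersion of `a² dx² + f(x)² dy²` the points of the torus where a linear
function `⟨F, v⟩` with `|v| = 1` attains its maximum have Gauss curvature `≥ 0` and normal `± v`.
Comparing the volume of the unit ball with the volume of its preimage under the cone over the
Gauss map gives `∫ max(-f'', 0) ≥ 2 a` (the total positive curvature is at least `4π`). The standard
torus has equality, and flattening the meridian slightly violates the inequality.
-/

open Pool.Agent.U565.TP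

namespace Pool.Agent.Results.MP_665542_gt.NoIsometricEmbedding

theorem result :
    -- (1) the assertion of Q1 is false
    (¬ ∀ g₀ : ℝ × ℝ → Matrix (Fin 2) (Fin 2) ℝ, IsTorusMetric g₀ →
      (∃ F₀, IsIsometricEmbedding g₀ F₀) →
      ∃ ε > 0, ∀ g, IsTorusMetric g → C0Close g g₀ ε → ∃ F, IsIsometricEmbedding g F) ∧
    -- (2) the standard tori of revolution
    (∀ R r : ℝ, 0 < r → r < R →
      IsTorusMetric (rot r fun x => R + r * Real.cos x) ∧
      IsIsometricEmbedding (rot r fun x => R + r * Real.cos x)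
        (rev (fun x => R + r * Real.cos x) fun x => r * Real.sin x) ∧
      ∀ ε > 0, ∀ k : ℕ, ∃ g, IsTorusMetric g ∧ C0Close g (rot r fun x => R + r * Real.cos x) ε ∧
        CkClose k g (rot r fun x => R + r * Real.cos x) ε ∧ ¬ ∃ F, IsIsometricImmersion g F) ∧
    -- (3) all tori of revolution with total positive curvature at most `4π`
    (∀ (a : ℝ) (f h : ℝ → ℝ), 0 < a → ContDiff ℝ (⊤ : ℕ∞) f → ContDiff ℝ (⊤ : ℕ∞) h →
      (∀ x, 0 < f x) → (∀ x, f (x + 2 * Real.pi) = f x) → (∀ x, h (x + 2 * Real.pi) = h x) →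
      (∀ x, deriv f x ^ 2 + deriv h x ^ 2 = a ^ 2) →
      (∀ x x', f x = f x' → h x = h x' → ∃ m : ℤ, x' = x + m * (2 * Real.pi)) →
      ∫ x in (0 : ℝ)..(2 * Real.pi), max (- deriv (deriv f) x) 0 ≤ 2 * a →
      IsTorusMetric (rot a f) ∧ IsIsometricEmbedding (rot a f) (rev f h) ∧
      ∀ ε > 0, ∀ k : ℕ, ∃ g, IsTorusMetric g ∧ C0Close g (rot a f) ε ∧
        CkClose k g (rot a f) ε ∧ ¬ ∃ F, IsIsometricImmersion g F) ∧
    -- (4) the obstruction
    (∀ (a : ℝ) (f : ℝ → ℝ), 0 < a → ContDiff ℝ (⊤ : ℕ∞) f → (∀ x, 0 < f x) →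
      (∃ F, IsIsometricImmersion (rot a f) F) →
      2 * a ≤ ∫ x in (0 : ℝ)..(2 * Real.pi), max (- deriv (deriv f) x) 0) := by
  have h3 : ∀ (a : ℝ) (f h : ℝ → ℝ), 0 < a → ContDiff ℝ (⊤ : ℕ∞) f → ContDiff ℝ (⊤ : ℕ∞) h →
      (∀ x, 0 < f x) → (∀ x, f (x + 2 * Real.pi) = f x) → (∀ x, h (x + 2 * Real.pi) = h x) →
      (∀ x, deriv f x ^ 2 + deriv h x ^ 2 = a ^ 2) →
      (∀ x x', f x = f x' → h x = h x' → ∃ m : ℤ, x' = x + m * (2 * Real.pi)) →
      ∫ x in (0 : ℝ)..(2 * Real.pi), max (- deriv (deriv f) x) 0 ≤ 2 * a →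
      IsTorusMetric (rot a f) ∧ IsIsometricEmbedding (rot a f) (rev f h) ∧
      ∀ ε > 0, ∀ k : ℕ, ∃ g, IsTorusMetric g ∧ C0Close g (rot a f) ε ∧
        CkClose k g (rot a f) ε ∧ ¬ ∃ F, IsIsometricImmersion g F := by
    intro a f h ha hf hh hpos hper hper' hspeed hinj hint
    exact ⟨rot_metric ha hf hpos hper, rev_embedding hf hh hpos hper hper' hspeed hinj,
      fun ε hε k => perturb ha hf hpos hper hint hε k⟩
  have h2 : ∀ R r : ℝ, 0 < r → r < R →
      IsTorusMetric (rot r fun x => R + r * Real.cos x) ∧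
      IsIsometricEmbedding (rot r fun x => R + r * Real.cos x)
        (rev (fun x => R + r * Real.cos x) fun x => r * Real.sin x) ∧
      ∀ ε > 0, ∀ k : ℕ, ∃ g, IsTorusMetric g ∧ C0Close g (rot r fun x => R + r * Real.cos x) ε ∧
        CkClose k g (rot r fun x => R + r * Real.cos x) ε ∧ ¬ ∃ F, IsIsometricImmersion g F := by
    intro R r hr hR
    obtain ⟨s1, s2, s3, s4, s5, s6⟩ := std_data hr hR
    exact h3 r _ _ hr s1 s2 s3 (fun x => by simp only [Real.cos_add_two_pi])
      (fun x => by simp only [Real.sin_add_two_pi]) s4 s5 s6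
  refine ⟨?_, h2, h3, fun a f ha hf hpos ⟨F, hF⟩ => no_immersion ha hf hpos hF⟩
  intro hcon
  obtain ⟨m1, m2, m3⟩ := h2 2 1 one_pos one_lt_two
  obtain ⟨ε, hε, h⟩ := hcon _ m1 ⟨_, m2⟩
  obtain ⟨g, g1, g2, -, g4⟩ := m3 ε hε 0
  obtain ⟨F, hF⟩ := h g g1 g2
  exact g4 ⟨F, hF.1⟩

end Pool.Agent.Results.MP_665542_gt.NoIsometricEmbedding
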